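import Mathlib
import Pool.Agent.Z894.SP.Fin

set_option autoImplicit false

namespace Pool.Agent.Results.MP_8dbee4_ag.AllPrimes

/-- On a very general complete intersection of degrees `d_1, …, d_r` in `P^(n+r)` over `ℂ`
(off countably many proper closed subsets, the `bad j`, of the parameter space), every irreducible
curve `C` (homogeneous prime `I` with `dim ℂ[x]/I = 2`; its degree is the eventual value of the
difference of the Hilbert function) satisfies the following. Let `Q > 0` be an integer whose prime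
factors are all `≥ l ≥ 2`. Then `Q ∣ deg C` in each of the following cases.

* For every prime `p ∣ Q` the product `d_1 ⋯ d_r` is divisible by
  `p ^ (m v_p(Q) + k (m ^ 2 - 1))`, where `m = n + ⌊(n - 1) / (p - 1)⌋` and `k = ⌊log_p n⌋`. For
  `p > n` one has `m = n` and `k = 0`, so if all prime factors of `Q` are larger than `n`, then the
  condition is `Q ^ n ∣ d_1 ⋯ d_r` (for one equation this is Kollár's theorem).
* There are `m` disjoint groups of indices with `Q ∣ ∏ d_i` over each group, and numbers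
  `a_1, …, a_B ≥ 0` such that each `a_b ≠ 0` has its own ungrouped index `ix b` with
  `Q ^ a_b ∣ d_(ix b)` and `a_b + 1 < l`, such that `∑ (a_b + 1) ≥ n + 1`, `B ≤ m + 1` and
  `n ≤ (m + 2 - B) (l - 1)`. (All `a_b = 0`, `B = n + 1`: `m` groups with
  `(n - 1) l + 1 ≤ m (l - 1)`, so `2 n - 1` groups for every `Q`.)
* `(n - 1) l + 1 ≤ m (l - 1)` and `Q ^ (n (m + E)) ∣ d_1 ⋯ d_r`, where
  `E = ∑_{j < n} ⌊(n - 1) / (l ^ (j + 1) - 1)⌋`. -/
theorem result :
    ∀ (n r : ℕ) (_hn : 0 < n) (d : Fin r → ℕ),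
    ∃ bad : ℕ → MvPolynomial (Σ i : Fin r, {μ : Fin (n + r + 1) →₀ ℕ // μ.degree = d i}) ℂ,
      (∀ j, bad j ≠ 0) ∧
      ∀ f : Fin r → MvPolynomial (Fin (n + r + 1)) ℂ,
        (∀ i, f i ∈ MvPolynomial.homogeneousSubmodule (Fin (n + r + 1)) ℂ (d i)) →
        (∀ j, MvPolynomial.eval (fun x => MvPolynomial.coeff x.2.1 (f x.1)) (bad j) ≠ 0) →
        ∀ I : Ideal (MvPolynomial (Fin (n + r + 1)) ℂ),
          (∀ p ∈ I, ∀ k : ℕ, MvPolynomial.homogeneousComponent k p ∈ I) →
          I.IsPrime →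
          ringKrullDim (MvPolynomial (Fin (n + r + 1)) ℂ ⧸ I) = 2 →
          (∀ i, f i ∈ I) →
          ∀ l Q : ℕ, 2 ≤ l → 0 < Q → (∀ p : ℕ, p.Prime → p ∣ Q → l ≤ p) →
            ((∀ p : ℕ, p.Prime → p ∣ Q → p ^ ((n + (n - 1) / (p - 1)) * Q.factorization p +
                Nat.log p n * ((n + (n - 1) / (p - 1)) ^ 2 - 1)) ∣ ∏ i, d i) ∨
              (∃ (m B : ℕ) (a : Fin B → ℕ) (ix : Fin B → Fin r) (g : Fin r → Option (Fin m)),
                B ≤ m + 1 ∧ n ≤ (m + 2 - B) * (l - 1) ∧ n + 1 ≤ ∑ b, (a b + 1) ∧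
                (∀ b, a b ≠ 0 → a b + 1 < l ∧ g (ix b) = none ∧ Q ^ (a b) ∣ d (ix b)) ∧
                (∀ b b', a b ≠ 0 → a b' ≠ 0 → ix b = ix b' → b = b') ∧
                ∀ c, Q ∣ ∏ i ∈ Finset.univ.filter (fun i => g i = some c), d i) ∨
              ∃ m : ℕ, (n - 1) * l + 1 ≤ m * (l - 1) ∧
                Q ^ (n * (m + ∑ j ∈ Finset.range n, (n - 1) / (l ^ (j + 1) - 1))) ∣ ∏ i, d i) →
            ∃ K : ℕ, ∀ k : ℕ, K ≤ k →
              (Q : ℤ) ∣
                (Module.finrank ℂ (Submodule.map (Ideal.Quotient.mkₐ ℂ I).toLinearMap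
                    (MvPolynomial.homogeneousSubmodule (Fin (n + r + 1)) ℂ (k + 1))) : ℤ) -
                (Module.finrank ℂ (Submodule.map (Ideal.Quotient.mkₐ ℂ I).toLinearMap
                    (MvPolynomial.homogeneousSubmodule (Fin (n + r + 1)) ℂ k)) : ℤ) := by
  intro n r hn d
  obtain ⟨b1, hb1, h1⟩ := Pool.Agent.Z894.MB.final n r hn d
  obtain ⟨b2, hb2, h2⟩ := Pool.Agent.Z894.CP.final n r hn d
  obtain ⟨b3, hb3, h3⟩ := Pool.Agent.Z894.SP.final n r hn d
  refine ⟨fun j => if j % 3 = 0 then b1 (j / 3) else if j % 3 = 1 then b2 (j / 3) else b3 (j / 3),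
    fun j => ?_, fun f hf hfb I hI hIp hdim hfI l Q hl hQ hp h => ?_⟩
  · dsimp only
    split_ifs
    · exact hb1 _
    · exact hb2 _
    · exact hb3 _
  · have e1 : ∀ j, MvPolynomial.eval (fun x => MvPolynomial.coeff x.2.1 (f x.1)) (b1 j) ≠ 0 := by
      intro j
      have h5 := hfb (3 * j)
      have h6 : 3 * j % 3 = 0 := by omega
      have h7 : 3 * j / 3 = j := by omega
      simp only [h6, h7, if_true] at h5
      exact h5
    have e2 : ∀ j, MvPolynomial.eval (fun x => MvPolynomial.coeff x.2.1 (f x.1)) (b2 j) ≠ 0 := by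
      intro j
      have h5 := hfb (3 * j + 1)
      have h6 : ¬ (3 * j + 1) % 3 = 0 := by omega
      have h6' : (3 * j + 1) % 3 = 1 := by omega
      have h7 : (3 * j + 1) / 3 = j := by omega
      simp only [h6', h7, if_true, if_false] at h5
      exact h5
    have e3 : ∀ j, MvPolynomial.eval (fun x => MvPolynomial.coeff x.2.1 (f x.1)) (b3 j) ≠ 0 := by
      intro j
      have h5 := hfb (3 * j + 2)
      have h6 : ¬ (3 * j + 2) % 3 = 0 := by omega
      have h6' : ¬ (3 * j + 2) % 3 = 1 := by omega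
      have h7 : (3 * j + 2) / 3 = j := by omega
      simp only [h6, h6', h7, if_false] at h5
      exact h5
    rcases h with h | h | ⟨m, hm, hd⟩
    · exact h3 f hf e3 I hI hIp hdim hfI Q hQ h
    · exact h1 f hf e1 I hI hIp hdim hfI l Q hl hQ hp (Or.inr h)
    · exact h2 f hf e2 I hI hIp hdim hfI m l Q hl hQ hp hm (Or.inr hd)

end Pool.Agent.Results.MP_8dbee4_ag.AllPrimes
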