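import Mathlib
import Pool.Agent.Z894.LX.Fin

set_option autoImplicit false

namespace Pool.Agent.Results.MP_8dbee4_ag.LinearExponent

/-- On a very general complete intersection of degrees `d_1, …, d_r` in `P^(n+r)` over `ℂ`
(off countably many proper closed subsets, the `bad j`, of the parameter space), every irreducible
curve `C` (homogeneous prime `I` with `dim ℂ[x]/I = 2`; its degree is the eventual value of the
difference of the Hilbert function) satisfies the following. Let `m` be `⌊(n+1)²/4⌋ + 1`, or `16n`,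
or the length of any walk `w_0, …, w_m` on a finite set such that for every set `K` of at most `n`
points there is a set `T` of points, disjoint from `K` and connected by the steps of the walk, with
`|K| + |T| ≥ n + 1`. Let `Q > 0` be an integer whose prime factors are all `≥ l ≥ 2`, and
`L = 1 + ⌊log_l n⌋` (so `L = 1` if `l > n`). If `Q ^ ((2 m - 1) L) ∣ d_1 ⋯ d_r`, then `Q ∣ deg C`.
The same holds if some of the indices are sorted into `G` groups with `Q ^ L ∣ ∏ d_i` over each
group, `Q ^ (L a_i) ∣ d_i` for the other indices, and `G + ∑ a_i ≥ m` (sum over these). -/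
theorem result :
    ∀ (n r : ℕ) (_hn : 0 < n) (d : Fin r → ℕ),
    ∃ bad : ℕ → MvPolynomial (Σ i : Fin r, {μ : Fin (n + r + 1) →₀ ℕ // μ.degree = d i}) ℂ,
      (∀ j, bad j ≠ 0) ∧
      ∀ f : Fin r → MvPolynomial (Fin (n + r + 1)) ℂ,
        (∀ i, f i ∈ MvPolynomial.homogeneousSubmodule (Fin (n + r + 1)) ℂ (d i)) →
        (∀ j, MvPolynomial.eval (fun x => MvPolynomial.coeff x.2.1 (f x.1)) (bad j) ≠ 0) →
        ∀ I : Ideal (MvPolynomial (Fin (n + r + 1)) ℂ),
          (∀ p ∈ I, ∀ k : ℕ, MvPolynomial.homogeneousComponent k p ∈ I) →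
          I.IsPrime →
          ringKrullDim (MvPolynomial (Fin (n + r + 1)) ℂ ⧸ I) = 2 →
          (∀ i, f i ∈ I) →
          ∀ m : ℕ, (m = (n + 1) ^ 2 / 4 + 1 ∨ m = 16 * n ∨
            ∃ (V : ℕ) (w : ℕ → Fin V), ∀ K : Finset (Fin V), K.card ≤ n →
              ∃ T : Finset (Fin V), Disjoint K T ∧ n + 1 ≤ K.card + T.card ∧
                ∀ U ⊂ T, U.Nonempty →
                  ∃ t < m, (w t ∈ U ∧ w (t + 1) ∈ T \ U) ∨ (w (t + 1) ∈ U ∧ w t ∈ T \ U)) →
          ∀ l Q : ℕ, 2 ≤ l → 0 < Q → (∀ p : ℕ, p.Prime → p ∣ Q → l ≤ p) →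
            ((∃ (G : ℕ) (g : Fin r → Option (Fin G)) (a : Fin r → ℕ),
                (∀ c, Q ^ (1 + Nat.log l n) ∣
                  ∏ i ∈ Finset.univ.filter (fun i => g i = some c), d i) ∧
                (∀ i, g i = none → Q ^ ((1 + Nat.log l n) * a i) ∣ d i) ∧
                m ≤ G + ∑ i ∈ Finset.univ.filter (fun i => g i = none), a i) ∨
              Q ^ ((2 * m - 1) * (1 + Nat.log l n)) ∣ ∏ i, d i) →
            ∃ K : ℕ, ∀ k : ℕ, K ≤ k →
              (Q : ℤ) ∣
                (Module.finrank ℂ (Submodule.map (Ideal.Quotient.mkₐ ℂ I).toLinearMap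
                    (MvPolynomial.homogeneousSubmodule (Fin (n + r + 1)) ℂ (k + 1))) : ℤ) -
                (Module.finrank ℂ (Submodule.map (Ideal.Quotient.mkₐ ℂ I).toLinearMap
                    (MvPolynomial.homogeneousSubmodule (Fin (n + r + 1)) ℂ k)) : ℤ) := by
  intro n r hn d
  obtain ⟨bad, hbad, hmain⟩ := Pool.Agent.Z894.LX.final n r hn d
  refine ⟨bad, hbad, fun f hf hfb I hI hIp hdim hfI m hm =>
    hmain f hf hfb I hI hIp hdim hfI m ?_⟩
  rcases hm with rfl | rfl | h
  · exact Pool.Agent.Y641.LX.walk_holds.1 n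
  · exact Pool.Agent.Y641.LX.walk_holds.2 n hn
  · exact h

end Pool.Agent.Results.MP_8dbee4_ag.LinearExponent
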